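import Pool.Agent.Helper17.FP.Stmts

set_option autoImplicit false

/-! MP_c38931_co, project FP: reciprocity, `v = q r` (RED). -/

open Finset

namespace Pool.Agent.Helper17.FP

open Pool.Agent.Helper17.SO Pool.Agent.Helper17.SV

theorem red_rec (p q : ℕ) (hp : Odd p) (hq : Odd q) :
    jacobiSym ((if q % 4 = 1 then (1 : ℤ) else -1) * (q : ℤ)) p = jacobiSym (p : ℤ) q := by
  split_ifs with h
  · rw [one_mul]
    exact jacobiSym.quadratic_reciprocity_one_mod_four h hp
  · have hq3 : q % 4 = 3 := by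
      have := hq.not_two_dvd_nat
      omega
    rw [jacobiSym.mul_left, jacobiSym.at_neg_one hp]
    have hp2 : p % 2 = 1 := Nat.odd_iff.1 hp
    have hp4 : p % 4 = 1 ∨ p % 4 = 3 := by omega
    rcases hp4 with h4 | h4
    · rw [ZMod.χ₄_nat_one_mod_four h4, one_mul]
      exact (jacobiSym.quadratic_reciprocity_one_mod_four h4 hq).symm
    · rw [ZMod.χ₄_nat_three_mod_four h4, jacobiSym.quadratic_reciprocity_three_mod_four hq3 h4]
      ring

theorem red_main (lam q r p k : ℕ) (hp : p.Prime) (hlam : 1 ≤ lam) (hpl : 2 * lam < p)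
    (hq : Odd q) (hk : lam ≤ k) (hv : lam * (q * r) + k = k * k + lam) (hpk : p ∣ k - lam)
    (h1 : jacobiSym (p : ℤ) q = 1) :
    jacobiSym ((if q % 4 = 1 then (1 : ℤ) else -1) * lam * r) p = 1 := by
  have hpodd : Odd p := by
    rcases hp.eq_two_or_odd' with h | h
    · omega
    · exact h
  have _ : Fact p.Prime := ⟨hp⟩
  -- `q r = lam` modulo `p`
  have hcong : (p : ℤ) ∣ (q : ℤ) * r - lam := by
    have h2 : (p : ℤ) ∣ (lam : ℤ) * ((q : ℤ) * r - lam) := by
      obtain ⟨c, hc⟩ := hpk
      have hc' : (k : ℤ) = lam + p * c := by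
        have : k = lam + p * c := by omega
        exact_mod_cast this
      have hv' : (lam : ℤ) * (q * r) + k = k * k + lam := by exact_mod_cast hv
      refine ⟨(c : ℤ) * (2 * lam + p * c - 1), ?_⟩
      rw [hc'] at hv'
      linear_combination hv'
    rcases (Nat.prime_iff_prime_int.1 hp).dvd_or_dvd h2 with h | h
    · exfalso
      have : p ∣ lam := by exact_mod_cast h
      have := Nat.le_of_dvd hlam this
      omega
    · exact h
  have hlamp : ¬ p ∣ lam := by
    intro h
    have := Nat.le_of_dvd hlam h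
    omega
  have hrp : ¬ p ∣ r := by
    intro h
    apply hlamp
    have h3 : (p : ℤ) ∣ (q : ℤ) * r := dvd_mul_of_dvd_right (by exact_mod_cast h) _
    have h4 : (p : ℤ) ∣ (lam : ℤ) := by
      have := dvd_sub h3 hcong
      simpa using this
    exact_mod_cast h4
  have hJ : jacobiSym ((q : ℤ) * r) p = jacobiSym (lam : ℤ) p := by
    apply jacobiSym.mod_left'
    exact (Int.emod_eq_emod_iff_emod_sub_eq_zero.2 (Int.emod_eq_zero_of_dvd hcong))
  have hr2 : jacobiSym (r : ℤ) p * jacobiSym (r : ℤ) p = 1 := by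
    have hg : Int.gcd (r : ℤ) p = 1 := by
      rw [Int.gcd_natCast_natCast]
      exact ((Nat.Prime.coprime_iff_not_dvd hp).2 hrp).symm
    have := jacobiSym.sq_one hg
    rw [← sq]
    exact this
  rw [jacobiSym.mul_left, jacobiSym.mul_left, ← hJ, jacobiSym.mul_left]
  have h5 := red_rec p q hpodd hq
  rw [jacobiSym.mul_left, h1] at h5
  calc _ = (jacobiSym (if q % 4 = 1 then (1 : ℤ) else -1) p * jacobiSym (q : ℤ) p) *
        (jacobiSym (r : ℤ) p * jacobiSym (r : ℤ) p) := by ring
    _ = 1 := by rw [h5, hr2, one_mul]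

theorem st_RED : ST_RED := by
  intro lam q k z v hlam hk hA hz hv
  obtain ⟨v', n, hkn, hn, hv', hodd, hq, hqv, hall⟩ := hA
  have hvv : v' = v := by
    have : lam * v' = lam * v := by omega
    exact Nat.eq_of_mul_eq_mul_left (by omega) this
  subst hvv
  obtain ⟨r, rfl⟩ := hqv
  have hqo : Odd q := (Nat.odd_mul.1 hodd).1
  have hro : Odd r := (Nat.odd_mul.1 hodd).2
  have hvz : (k : ℤ) ^ 2 - k + lam = lam * (q * r) := by
    have : (lam : ℤ) * (q * r) + k = k * k + lam := by exact_mod_cast hv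
    linear_combination -this
  refine ⟨r, rfl, hro, ?_, ⟨if q % 4 = 1 then (1 : ℤ) else -1, ?_, ?_⟩, ?_⟩
  · rw [hvz]
    exact ⟨lam * q, by ring⟩
  · split_ifs
    · left; rfl
    · right; rfl
  · intro p hp hpz hpl hfac
    have hpk : p ∣ k - lam := by
      by_contra h
      rw [Nat.factorization_eq_zero_of_not_dvd h] at hfac
      exact zero_ne_one hfac
    have hnk : k - lam = n := by omega
    apply red_main lam q r p k hp hlam hpl hqo hk.le hv hpk
    apply hall p hp (by omega)
    rw [← hnk, hfac]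
    exact odd_one
  · intro l hl hlz hlam' hlr hFD
    unfold FD at hFD
    rw [hvz] at hFD
    have h1 : l ∣ lam * (q * r) := by exact_mod_cast hFD
    rcases (hl.dvd_mul).1 h1 with h | h
    · have := Nat.le_of_dvd (by omega) h
      omega
    · rcases (hl.dvd_mul).1 h with h | h
      · have := (Nat.prime_dvd_prime_iff_eq hl hq).1 h
        omega
      · exact hlr h

end Pool.Agent.Helper17.FP
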