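import Pool.Agent.Helper17.FP.Stmts

set_option autoImplicit false

/-! MP_c38931_co, project FP: the sum of the weights over the multiples of a prime (WDIV). -/

open Finset

namespace Pool.Agent.Helper17.FP

open Pool.Agent.Helper17.SO Pool.Agent.Helper17.SV

theorem wdiv_sum (f : ℕ → ℝ) (p R : ℕ) (hp : 0 < p) :
    ∑ r ∈ (Ioc 0 R).filter (fun r => p ∣ r), f r = ∑ m ∈ Ioc 0 (R / p), f (p * m) := by
  symm
  apply Finset.sum_bij (fun m _ => p * m)
  · intro m hm
    rw [Finset.mem_Ioc] at hm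
    rw [Finset.mem_filter, Finset.mem_Ioc]
    refine ⟨⟨Nat.mul_pos hp hm.1, ?_⟩, dvd_mul_right p m⟩
    calc p * m ≤ p * (R / p) := Nat.mul_le_mul_left p hm.2
      _ ≤ R := Nat.mul_div_le R p
  · intro a _ b _ h
    exact Nat.eq_of_mul_eq_mul_left hp h
  · intro r hr
    rw [Finset.mem_filter, Finset.mem_Ioc] at hr
    obtain ⟨⟨h0, h1⟩, m, rfl⟩ := hr
    refine ⟨m, ?_, rfl⟩
    rw [Finset.mem_Ioc]
    refine ⟨Nat.pos_of_mul_pos_left h0, ?_⟩
    rw [Nat.le_div_iff_mul_le hp, mul_comm]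
    exact h1
  · intro m _
    rfl

theorem wdiv_chi_mul (lam p e : ℕ) : chi lam (p * e) = chi lam p * chi lam e := by
  unfold chi
  by_cases h1 : p % 2 = 1
  · by_cases h2 : e % 2 = 1
    · have h3 : (p * e) % 2 = 1 := by rw [Nat.mul_mod, h1, h2]
      rw [if_pos h1, if_pos h2, if_pos h3]
      have hp0 : p ≠ 0 := by rintro rfl; simp at h1
      have he0 : e ≠ 0 := by rintro rfl; simp at h2
      exact jacobiSym.mul_right' _ hp0 he0
    · have h3 : ¬ (p * e) % 2 = 1 := by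
        have : e % 2 = 0 := by omega
        rw [Nat.mul_mod, this]; simp
      rw [if_neg h2, if_neg h3, mul_zero]
  · have h3 : ¬ (p * e) % 2 = 1 := by
      have : p % 2 = 0 := by omega
      rw [Nat.mul_mod, this]; simp
    rw [if_neg h1, if_neg h3, zero_mul]

theorem wdiv_chi_abs (lam p : ℕ) : |chi lam p| ≤ 1 := by
  unfold chi
  split_ifs
  · rcases jacobiSym.trichotomy (1 - 4 * (lam : ℤ)) p with h | h | h <;> rw [h] <;> norm_num
  · norm_num

theorem wdiv_part (lam p m : ℕ) (hp : p.Prime) (hm : 0 < m) (_hpm : p ∣ m) :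
    ∑ e ∈ m.divisors.filter (fun e => p * e ∣ m), chi lam e = wt lam (m / p) := by
  unfold wt
  apply Finset.sum_congr ?_ (fun _ _ => rfl)
  obtain ⟨j, rfl⟩ := _hpm
  have hj : 0 < j := Nat.pos_of_mul_pos_left hm
  rw [Nat.mul_div_cancel_left j hp.pos]
  ext e
  rw [Finset.mem_filter, Nat.mem_divisors, Nat.mem_divisors]
  constructor
  · rintro ⟨_, h⟩
    exact ⟨Nat.dvd_of_mul_dvd_mul_left hp.pos h, hj.ne'⟩
  · rintro ⟨h, _⟩
    exact ⟨⟨dvd_mul_of_dvd_right h p, hm.ne'⟩, Nat.mul_dvd_mul_left p h⟩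

theorem wdiv_part0 (lam p m : ℕ) (hpm : ¬ p ∣ m) :
    ∑ e ∈ m.divisors.filter (fun e => p * e ∣ m), chi lam e = 0 := by
  rw [Finset.filter_false_of_mem]
  · simp
  · intro e _ h
    exact hpm ((dvd_mul_right p e).trans h)

theorem wdiv_wt (lam p m : ℕ) (hp : p.Prime) (hm : 0 < m) :
    wt lam (p * m) = wt lam m + chi lam p *
      (wt lam m - ∑ e ∈ m.divisors.filter (fun e => p * e ∣ m), chi lam e) := by
  have h1 : wt lam (p * m) =
      ∑ d ∈ (p * m).divisors.filter (fun d => d ∣ m), chi lam d +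
      ∑ d ∈ (p * m).divisors.filter (fun d => ¬ d ∣ m), chi lam d := by
    unfold wt
    rw [Finset.sum_filter_add_sum_filter_not]
  have h2 : (p * m).divisors.filter (fun d => d ∣ m) = m.divisors := by
    ext d
    rw [Finset.mem_filter, Nat.mem_divisors, Nat.mem_divisors]
    constructor
    · rintro ⟨_, h⟩
      exact ⟨h, hm.ne'⟩
    · rintro ⟨h, _⟩
      exact ⟨⟨dvd_mul_of_dvd_right h p, (Nat.mul_pos hp.pos hm).ne'⟩, h⟩
  have h3 : ∑ d ∈ (p * m).divisors.filter (fun d => ¬ d ∣ m), chi lam d =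
      ∑ e ∈ m.divisors.filter (fun e => ¬ p * e ∣ m), chi lam p * chi lam e := by
    symm
    apply Finset.sum_bij (fun e _ => p * e)
    · intro e he
      rw [Finset.mem_filter, Nat.mem_divisors] at he
      rw [Finset.mem_filter, Nat.mem_divisors]
      exact ⟨⟨Nat.mul_dvd_mul_left p he.1.1, (Nat.mul_pos hp.pos hm).ne'⟩, he.2⟩
    · intro a _ b _ h
      exact Nat.eq_of_mul_eq_mul_left hp.pos h
    · intro d hd
      rw [Finset.mem_filter, Nat.mem_divisors] at hd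
      obtain ⟨⟨hd1, _⟩, hd2⟩ := hd
      have hpd : p ∣ d := by
        by_contra hpd
        have hc : Nat.Coprime d p := ((Nat.Prime.coprime_iff_not_dvd hp).2 hpd).symm
        exact hd2 (hc.dvd_of_dvd_mul_left hd1)
      obtain ⟨e, rfl⟩ := hpd
      refine ⟨e, ?_, rfl⟩
      rw [Finset.mem_filter, Nat.mem_divisors]
      exact ⟨⟨Nat.dvd_of_mul_dvd_mul_left hp.pos hd1, hm.ne'⟩, hd2⟩
    · intro e _
      rw [wdiv_chi_mul]
  have h4 : wt lam m = ∑ e ∈ m.divisors.filter (fun e => p * e ∣ m), chi lam e +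
      ∑ e ∈ m.divisors.filter (fun e => ¬ p * e ∣ m), chi lam e := by
    unfold wt
    rw [Finset.sum_filter_add_sum_filter_not]
  rw [h1, h2, h3, ← Finset.mul_sum]
  have h5 : ∑ e ∈ m.divisors.filter (fun e => ¬ p * e ∣ m), chi lam e =
      wt lam m - ∑ e ∈ m.divisors.filter (fun e => p * e ∣ m), chi lam e := by
    rw [h4]; ring
  rw [h5]
  rfl

theorem wdiv_bound (hN : ST_WNN) (lam p m : ℕ) (hp : p.Prime) (hm : 0 < m) :
    wt lam (p * m) ≤ 2 * wt lam m + (if p ∣ m then wt lam (m / p) else 0) := by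
  rw [wdiv_wt lam p m hp hm]
  have h0 := hN lam m
  have hc := abs_le.1 (wdiv_chi_abs lam p)
  split_ifs with hpm
  · rw [wdiv_part lam p m hp hm hpm]
    have h1 := hN lam (m / p)
    nlinarith [mul_nonneg h0 (sub_nonneg.2 hc.2), mul_nonneg h1 (by linarith : 0 ≤ 1 + chi lam p)]
  · rw [wdiv_part0 lam p m hpm]
    nlinarith [mul_nonneg h0 (sub_nonneg.2 hc.2)]

theorem st_WDIV (hN : ST_WNN) (hS : ST_WSUM) : ST_WDIV := by
  intro lam hlam
  obtain ⟨C, hC, hW⟩ := hS lam hlam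
  refine ⟨3 * C, by positivity, ?_⟩
  intro p R hp
  rw [wdiv_sum _ p R hp.pos]
  have h1 : ∑ m ∈ Ioc 0 (R / p), (wt lam (p * m) : ℝ) ≤
      ∑ m ∈ Ioc 0 (R / p), (2 * (wt lam m : ℝ) + (if p ∣ m then (wt lam (m / p) : ℝ) else 0)) := by
    apply Finset.sum_le_sum
    intro m hm
    rw [Finset.mem_Ioc] at hm
    have := wdiv_bound hN lam p m hp hm.1
    have h2 : (wt lam (p * m) : ℝ) ≤
        ((2 * wt lam m + (if p ∣ m then wt lam (m / p) else 0) : ℤ) : ℝ) := by exact_mod_cast this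
    refine h2.trans (le_of_eq ?_)
    split_ifs <;> push_cast <;> ring
  have h2 : ∑ m ∈ Ioc 0 (R / p), (2 * (wt lam m : ℝ) +
      (if p ∣ m then (wt lam (m / p) : ℝ) else 0)) =
      2 * ∑ m ∈ Ioc 0 (R / p), (wt lam m : ℝ) + ∑ j ∈ Ioc 0 (R / p / p), (wt lam j : ℝ) := by
    rw [Finset.sum_add_distrib, ← Finset.mul_sum, ← Finset.sum_filter,
      wdiv_sum (fun m => (wt lam (m / p) : ℝ)) p (R / p) hp.pos]
    congr 1
    apply Finset.sum_congr rfl
    intro j _
    rw [Nat.mul_div_cancel_left j hp.pos]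
  rw [h2] at h1
  refine h1.trans ?_
  have hpp : (0 : ℝ) < p := by exact_mod_cast hp.pos
  have h3 : ((R / p : ℕ) : ℝ) ≤ (R : ℝ) / p := Nat.cast_div_le
  have h4 : ((R / p / p : ℕ) : ℝ) ≤ (R : ℝ) / p := by
    refine le_trans ?_ h3
    exact_mod_cast Nat.div_le_self (R / p) p
  have h5 := hW (R / p)
  have h6 := hW (R / p / p)
  have h7 : C * ((R / p : ℕ) : ℝ) ≤ C * ((R : ℝ) / p) := mul_le_mul_of_nonneg_left h3 hC.le
  have h8 : C * ((R / p / p : ℕ) : ℝ) ≤ C * ((R : ℝ) / p) := mul_le_mul_of_nonneg_left h4 hC.le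
  linarith

end Pool.Agent.Helper17.FP
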