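import Pool.Agent.Helper17.FP.Stmts

set_option autoImplicit false

/-! MP_c38931_co, project FP: the sum of the weights divided by `r` (WREC). -/

open Finset

namespace Pool.Agent.Helper17.FP

open Pool.Agent.Helper17.SO Pool.Agent.Helper17.SV

theorem wrec_step (w : ℕ → ℝ) (C : ℝ) (hC : 0 ≤ C)
    (hW : ∀ R : ℕ, ∑ r ∈ Ioc 0 R, w r ≤ C * R) (R : ℕ) (hR : 1 ≤ R) :
    ∑ r ∈ Ioc 0 R, w r / r ≤ (∑ r ∈ Ioc 0 R, w r) / R + C * ∑ r ∈ Ioc 0 R, (1 : ℝ) / r := by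
  induction R, hR using Nat.le_induction with
  | base =>
    have e : Ioc 0 1 = ({1} : Finset ℕ) := by decide
    rw [e]
    simp
    exact hC
  | succ R hR ih =>
    have hI : ∀ f : ℕ → ℝ, ∑ r ∈ Ioc 0 (R + 1), f r = ∑ r ∈ Ioc 0 R, f r + f (R + 1) := by
      intro f
      rw [Finset.sum_Ioc_succ_top (Nat.zero_le R)]
    rw [hI, hI, hI]
    have hRp : (0 : ℝ) < R := by exact_mod_cast hR
    have h1 := hW R
    have key : (∑ r ∈ Ioc 0 R, w r) / R ≤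
        (∑ r ∈ Ioc 0 R, w r) / (((R + 1 : ℕ) : ℝ)) + C * (1 / (((R + 1 : ℕ) : ℝ))) := by
      push_cast
      rw [div_le_iff₀ hRp]
      have e : ((∑ r ∈ Ioc 0 R, w r) / ((R : ℝ) + 1) + C * (1 / ((R : ℝ) + 1))) * R =
          ((∑ r ∈ Ioc 0 R, w r) * R + C * R) / ((R : ℝ) + 1) := by
        field_simp
      rw [e, le_div_iff₀ (by positivity)]
      nlinarith
    have e1 : (∑ r ∈ Ioc 0 R, w r + w (R + 1)) / (((R + 1 : ℕ) : ℝ)) =
        (∑ r ∈ Ioc 0 R, w r) / (((R + 1 : ℕ) : ℝ)) + w (R + 1) / (((R + 1 : ℕ) : ℝ)) := by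
      rw [add_div]
    rw [e1, mul_add]
    linarith

theorem wrec_harm (R : ℕ) : ∑ r ∈ Ioc 0 R, (1 : ℝ) / r ≤ 1 + Real.log R := by
  have h := harmonic_le_one_add_log R
  have e : ((harmonic R : ℚ) : ℝ) = ∑ r ∈ Ioc 0 R, (1 : ℝ) / r := by
    rw [harmonic_eq_sum_Icc]
    push_cast
    apply Finset.sum_bij (fun a _ => a)
    · intro a ha
      rw [Finset.mem_Icc] at ha
      rw [Finset.mem_Ioc]
      omega
    · intro a _ b _ h
      exact h
    · intro b hb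
      rw [Finset.mem_Ioc] at hb
      refine ⟨b, ?_, rfl⟩
      rw [Finset.mem_Icc]
      omega
    · intro a _
      rw [one_div]
  rw [← e]
  exact h

theorem st_WREC (_ : ST_WNN) (hS : ST_WSUM) : ST_WREC := by
  intro lam hlam
  obtain ⟨C, hC, hW⟩ := hS lam hlam
  refine ⟨2 * C, by positivity, ?_⟩
  intro R hR
  have h1 := wrec_step (fun r => (wt lam r : ℝ)) C hC.le hW R hR
  have h2 := wrec_harm R
  have hRp : (0 : ℝ) < R := by exact_mod_cast hR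
  have h3 : (∑ r ∈ Ioc 0 R, (wt lam r : ℝ)) / R ≤ C := by
    rw [div_le_iff₀ hRp]
    exact hW R
  have h4 : C * ∑ r ∈ Ioc 0 R, (1 : ℝ) / r ≤ C * (1 + Real.log R) :=
    mul_le_mul_of_nonneg_left h2 hC.le
  have h5 : 0 ≤ Real.log R := Real.log_natCast_nonneg R
  have h6 : 0 ≤ C * Real.log R := mul_nonneg hC.le h5
  linarith

end Pool.Agent.Helper17.FP
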